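import Pool.Agent.LibPerc.Cheb

set_option autoImplicit false
open MeasureTheory ProbabilityTheory Filter Topology
open scoped symmDiff
open Pool.Agent.LibPerc

namespace Pool.Agent.Results.MP_d3947f_pr.Diameter

/-- The law of the coins of the random cubical graph in dimension `n`: there is one coin for every
vertex of the cube (the vertices are the subsets of `Fin n`) and one coin for every unordered pair
of vertices; all coins are independent, a vertex coin shows `true` with probability `pv`, a pair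
coin with probability `pe`. -/
noncomputable def coins (n : ℕ) (pv pe : ℝ) :
    Measure ((Finset (Fin n) ⊕ Sym2 (Finset (Fin n))) → Bool) :=
  Measure.pi (Sum.elim
    (fun _ => ENNReal.ofReal pv • Measure.dirac true + ENNReal.ofReal (1 - pv) • Measure.dirac false)
    (fun _ => ENNReal.ofReal pe • Measure.dirac true + ENNReal.ofReal (1 - pe) • Measure.dirac false))

/-- The random cubical graph read off from the coins: `x` and `y` are adjacent when they differ in
exactly one coordinate, both are present, and the coin of the pair `x, y` shows `true`. Vertices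
that are not present are isolated. -/
def cubical {n : ℕ} (ω : (Finset (Fin n) ⊕ Sym2 (Finset (Fin n))) → Bool) :
    SimpleGraph (Finset (Fin n)) where
  Adj x y := (x ∆ y).card = 1 ∧ ω (Sum.inl x) = true ∧ ω (Sum.inl y) = true ∧
    ω (Sum.inr s(x, y)) = true
  symm := ⟨fun x y ⟨h1, h2, h3, h4⟩ =>
    ⟨by rw [symmDiff_comm]; exact h1, h3, h2, by rw [Sym2.eq_swap]; exact h4⟩⟩
  loopless := ⟨fun x h => by
    have := h.1
    rw [symmDiff_self] at this
    simp at this⟩

/-- The largest distance between two present vertices in the same component is `d`. -/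
def HasDiam {n : ℕ} (ω : (Finset (Fin n) ⊕ Sym2 (Finset (Fin n))) → Bool) (d : ℕ) : Prop :=
  IsGreatest {k : ℕ | ∃ x y : Finset (Fin n), ω (Sum.inl x) = true ∧ ω (Sum.inl y) = true ∧
    (cubical ω).Reachable x y ∧ (cubical ω).dist x y = k} d

lemma coins_eq (n : ℕ) (pv pe : ℝ) : coins n pv pe = law (par pv pe) := by
  unfold coins law
  congr 1
  ext c
  rcases c with z | e <;> rfl

lemma hasDiam_of_good {n m M : ℕ} {pv pe : ℝ} (hv : 0 < pv) (he : 0 < pe) (hm : 1 ≤ m)
    (hM5 : 5 ≤ M) (hn : M * (3 * m + 8 + 2 * m) ≤ n) {ω : Co n → Bool}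
    (h1 : GoodG pv pe (n / M) ω) (h2 : GoodP m (3 * m + 8) (n / M) ω)
    (h3 : ∃ k : Finset (Fin n) × (Fin m ↪ Fin n), EvC k.1 k.2 ω) : HasDiam ω (n + m) := by
  have hL : 3 * m + 8 + 2 * m ≤ n / M := by
    rw [Nat.le_div_iff_mul_le (by omega)]
    calc (3 * m + 8 + 2 * m) * M = M * (3 * m + 8 + 2 * m) := mul_comm _ _
      _ ≤ n := hn
  have h5 : 5 * (n / M) ≤ n := (Nat.mul_le_mul_right _ hM5).trans (Nat.mul_div_le n M)
  obtain ⟨⟨x, i⟩, h3⟩ := h3
  have hup : ∀ x y : Finset (Fin n), (hG ω).Reachable x y → (hG ω).dist x y ≤ n + m := by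
    intro x y hxy
    exact dist_le_of_good hv he h1 h2 hm (by omega) h5 le_rfl hL hxy
  have hr := reach_of_good hv he h1 h2 hm (by omega) h5 (by omega) h3
  constructor
  · refine ⟨x, (vx x i m)ᶜ, h3.1, h3.2.1, hr, ?_⟩
    exact le_antisymm (hup _ _ hr) (dist_ge_of_EvC h3 (by omega) hr)
  · rintro k ⟨x, y, _, _, hxy, rfl⟩
    exact hup x y hxy

/-- the number `m_p` satisfies `q ^ (m_p + 1) < 1 / 2 ≤ q ^ m_p` -/
lemma floor_props {q : ℝ} (hq0 : 1 / 2 < q) (hq1 : q < 1) :
    1 ≤ ⌊-1 / Real.logb 2 q⌋₊ ∧ 1 / 2 ≤ q ^ ⌊-1 / Real.logb 2 q⌋₊ ∧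
      q ^ (⌊-1 / Real.logb 2 q⌋₊ + 1) < 1 / 2 := by
  have hq : 0 < q := by linarith
  have hlog : Real.logb 2 q < 0 := Real.logb_neg (by norm_num) hq hq1
  have hlog1 : -1 < Real.logb 2 q := by
    rw [Real.lt_logb_iff_rpow_lt (by norm_num) hq, Real.rpow_neg_one]
    linarith
  set s := -Real.logb 2 q with hs
  have hs0 : 0 < s := by linarith
  have hs1 : s < 1 := by linarith
  have he : -1 / Real.logb 2 q = 1 / s := by
    rw [hs, div_neg, neg_div]
  rw [he]
  have hqs : ∀ k : ℕ, q ^ k = (2:ℝ) ^ (-(s * k)) := by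
    intro k
    have h1 : (2:ℝ) ^ (Real.logb 2 q) = q := Real.rpow_logb (by norm_num) (by norm_num) hq
    have h2 : -(s * k) = Real.logb 2 q * k := by rw [hs]; ring
    rw [h2, Real.rpow_mul (by norm_num), h1, Real.rpow_natCast]
  have hhalf : (1:ℝ) / 2 = (2:ℝ) ^ (-1:ℝ) := by
    rw [Real.rpow_neg_one]; norm_num
  refine ⟨?_, ?_, ?_⟩
  · rw [Nat.one_le_floor_iff]
    rw [le_div_iff₀ hs0]
    linarith
  · rw [hqs, hhalf]
    refine Real.rpow_le_rpow_of_exponent_le (by norm_num) ?_
    have := Nat.floor_le (show 0 ≤ 1 / s by positivity)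
    rw [le_div_iff₀ hs0] at this
    linarith
  · rw [hqs, hhalf]
    refine Real.rpow_lt_rpow_of_exponent_lt (by norm_num) ?_
    have := Nat.lt_floor_add_one (1 / s)
    rw [div_lt_iff₀ hs0] at this
    push_cast
    linarith

/-- For all fixed `pv`, `pe` in `(0, 1]` with `pv * pe < 1 / 2`, the probability that the random
cubical graph in dimension `n` has diameter exactly `n + m_p`, where
`m_p = ⌊-1 / log₂ (1 - pv * pe)⌋`, tends to one. -/
theorem result : ∀ pv pe : ℝ, 0 < pv → pv ≤ 1 → 0 < pe → pe ≤ 1 → pv * pe < 1 / 2 →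
    Tendsto (fun n : ℕ => (coins n pv pe).real
      {ω | HasDiam ω (n + ⌊-1 / Real.logb 2 (1 - pv * pe)⌋₊)}) atTop (𝓝 1) := by
  intro pv pe hv0 hv1 he0 he1 hp
  have hp0 : 0 < pv * pe := by positivity
  obtain ⟨hm1, hm2, hm3⟩ := floor_props (q := 1 - pv * pe) (by linarith) (by linarith)
  set m := ⌊-1 / Real.logb 2 (1 - pv * pe)⌋₊ with hm
  obtain ⟨M0, hM0⟩ := tendsto_goodP hv0 hv1 he0 he1 m (3 * m + 8) hm3
  set M := max 5 M0 with hM
  have t1 := tendsto_goodG hv0 hv1 he0 he1 M (by rw [hM]; omega)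
  have t2 := hM0 M (le_max_right _ _)
  have t3 := tendsto_chain hv0 hv1 he0 he1 m hm1 (by linarith) hm2
  have hlow : Tendsto (fun n : ℕ => 1 - ((law (par pv pe)).real {ω : Co n → Bool | ¬ GoodG pv pe (n / M) ω} +
      (law (par pv pe)).real {ω : Co n → Bool | ¬ GoodP m (3 * m + 8) (n / M) ω} +
      (law (par pv pe)).real {ω : Co n → Bool | ∀ k : Finset (Fin n) × (Fin m ↪ Fin n), ¬ EvC k.1 k.2 ω}))
      atTop (𝓝 1) := by
    have := ((t1.add t2).add t3).const_sub 1
    simpa using this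
  refine tendsto_of_tendsto_of_tendsto_of_le_of_le' hlow tendsto_const_nhds ?_ ?_
  · filter_upwards [eventually_ge_atTop (M * (3 * m + 8 + 2 * m))] with n hn
    have H0 := par_nonneg (n := n) hv0 hv1 he0 he1
    have H1 := par_le_one (n := n) hv0 hv1 he0 he1
    have := law_prob H0 H1
    rw [coins_eq]
    have hsub : {ω : Co n → Bool | HasDiam ω (n + m)}ᶜ ⊆
        ({ω : Co n → Bool | ¬ GoodG pv pe (n / M) ω} ∪
        {ω : Co n → Bool | ¬ GoodP m (3 * m + 8) (n / M) ω}) ∪
        {ω : Co n → Bool | ∀ k : Finset (Fin n) × (Fin m ↪ Fin n), ¬ EvC k.1 k.2 ω} := by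
      intro ω hω
      by_contra hcon
      rw [Set.mem_union, Set.mem_union, not_or, not_or] at hcon
      obtain ⟨⟨c1, c2⟩, c3⟩ := hcon
      simp only [Set.mem_ofPred_eq, not_not, not_forall] at c1 c2 c3
      exact hω (hasDiam_of_good hv0 he0 hm1 (le_max_left _ _) hn c1 c2 c3)
    have h1 : (law (par pv pe)).real ({ω : Co n → Bool | HasDiam ω (n + m)}ᶜ) ≤
        (law (par pv pe)).real {ω : Co n → Bool | ¬ GoodG pv pe (n / M) ω} +
        (law (par pv pe)).real {ω : Co n → Bool | ¬ GoodP m (3 * m + 8) (n / M) ω} +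
        (law (par pv pe)).real {ω : Co n → Bool | ∀ k : Finset (Fin n) × (Fin m ↪ Fin n), ¬ EvC k.1 k.2 ω} := by
      refine (measureReal_mono hsub).trans ((measureReal_union_le _ _).trans ?_)
      exact add_le_add (measureReal_union_le _ _) le_rfl
    rw [probReal_compl_eq_one_sub MeasurableSet.of_discrete] at h1
    linarith
  · refine Eventually.of_forall fun n => ?_
    have H0 := par_nonneg (n := n) hv0 hv1 he0 he1
    have H1 := par_le_one (n := n) hv0 hv1 he0 he1
    have := law_prob H0 H1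
    rw [coins_eq]
    exact measureReal_le_one

end Pool.Agent.Results.MP_d3947f_pr.Diameter
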